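import Pool.Agent.Y100.Sg.StA

/-!
# The sign conjecture and birational motives
-/

open CategoryTheory AlgebraicGeometry

universe u v

namespace Pool.Agent.Results.MP_fd35e1_ag.BirationalMotive

open Pool.Agent.H914 Pool.Agent.H447 Pool.Agent.W550.B Pool.Agent.Y100.Sg VarClass Obj

/-- **The sign conjecture modulo correspondences of small support.** -/
theorem result {k : Type u} [Field k] {𝒱 : VarClass k} {ops : CycleOps 𝒱}
    (W : WeilCohomology.{u, v} ops) (Y : 𝒱.Obj) (C : Set 𝒱.Obj) (hC : ∀ X ∈ C, SignStd W X)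
    (c : ℕ) (hL : ∀ E : 𝒱.Obj, E.dim + c = Y.dim → ∃ D, IsLefschetzDivisor W E D)
    (hE : ∀ E : 𝒱.Obj, E.dim + c = Y.dim → ∀ i, 1 ≤ i → i + 2 * c < Y.dim →
      i % 2 ≠ Y.dim % 2 → IsSeparated W E i)
    (hY : ComesFromClass W Y C c) : SignStd W Y :=
  sign_of_comesFromClass hC hL hE hY

end Pool.Agent.Results.MP_fd35e1_ag.BirationalMotive
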