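import Pool.Agent.Y112.QB.Bridge

/-!
# The sign conjecture and quotients of products

Let the finite group `G` act on `X` and on `Y` and let `Z` be a variety whose motive contains the
`G`-invariants of the motive of `X × Y` (for instance the quotient `(X × Y)/G`, a resolution of
it, or a variety which dominates it). The sign conjecture for `Z` implies the sign conjecture
for the parts of the motives of `X` and `Y` belonging to the irreducible representations which are
matched in `H(X) ⊗ H(Y)`; for a quotient it is equivalent to it; and when `G` acts independently on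
`H(Y)`, for example freely with nonzero Euler characteristic, the part of `X` is all of `X`.
-/

open CategoryTheory AlgebraicGeometry

universe u v

namespace Pool.Agent.Results.MP_fd35e1_ag.QuotientsOfProducts

open Pool.Agent.H914 VarClass Obj WeilCohomology Pool.Agent.H447 Pool.Agent.Y112.QC

theorem result {k : Type u} [Field k] {𝒱 : VarClass k} {ops : CycleOps 𝒱}
    (W : WeilCohomology.{u, v} ops) (X Y Z : 𝒱.Obj) {G : Type} [Group G] [Fintype G]
    (ρ : GAct G X) (σ : GAct G Y) :
    (ContainsInvariants W ρ σ Z → SignStd W Z → SignOnPart W ρ σ ∧ SignOnPart W σ ρ) ∧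
    (∀ π : X.prod Y ⟶ Z, IsQuotient W ρ σ π →
      (SignStd W Z ↔ SignOnPart W ρ σ ∧ SignOnPart W σ ρ)) ∧
    (ActsIndependently W σ → (SignOnPart W ρ σ ↔ SignStd W X)) ∧
    (∀ c : W.K, c ≠ 0 → LefschetzNumberIs W (𝟙 Y) c →
      (∀ g : G, g ≠ 1 → LefschetzNumberIs W (σ.hom g) 0) → ActsIndependently W σ) :=
  sign_main ρ σ

end Pool.Agent.Results.MP_fd35e1_ag.QuotientsOfProducts
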